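import Pool.Agent.Lib_MP_bc75e5_pf.Core

/-!
# MP_bc75e5_nt, FixedZ

For every `c` and `z`, the admissible solutions `(x, y, z)` of `x^4 + y^4 = c z^4` with this `z`:
at most one if `c z` has at most two odd prime factors, at most `2^(w-1)` if it has `w`.
-/

set_option autoImplicit false

namespace Pool.Agent.Results.MP_bc75e5_nt.FixedZ

open Pool.Agent.QuarticPF

theorem result (c z : ℕ) (S : Finset (ℕ × ℕ)) (hS : ∀ t ∈ S, Admissible c t.1 t.2 z) :
    (oddOmega (c * z) ≤ 2 → S.card ≤ 1) ∧ 2 * S.card ≤ 2 ^ oddOmega (c * z) := by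
  refine ⟨fun h => ?_, partB1 c z S hS⟩
  by_contra hc
  have := partB2 c z S hS (by omega)
  omega

end Pool.Agent.Results.MP_bc75e5_nt.FixedZ
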