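import Pool.Agent.Lib_MP_bc75e5_pf.Core

/-!
# MP_bc75e5_nt, SmallZ

The admissible solutions `(x, y, z)` of `x^4 + y^4 = c z^4` with `2 z^4 < c`: at most `4^(w-1)`,
where `w` is the number of odd prime factors of `c`.
-/

set_option autoImplicit false

namespace Pool.Agent.Results.MP_bc75e5_nt.SmallZ

open Pool.Agent.QuarticPF

theorem result (c : ℕ) (S : Finset (ℕ × ℕ × ℕ))
    (hS : ∀ t ∈ S, Admissible c t.1 t.2.1 t.2.2 ∧ 2 * t.2.2 ^ 4 < c) :
    4 * S.card ≤ 4 ^ oddOmega c :=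
  partA c S hS

end Pool.Agent.Results.MP_bc75e5_nt.SmallZ
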